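import Pool.Agent.H22.PDP6

open Pool.Agent.H38.NP Pool.Agent.H22.PDP

theorem Pool.Agent.Results.MP_f73e8c_lc.Hard.result :
    NPHardOn (fun I : Inst => Valid I ∧
      (∀ v, ((graphOf I.2.2.1.length I.2.2.2).neighborSet v).ncard ≤ 4) ∧
      (graphOf I.2.2.1.length I.2.2.2).Colorable 3 ∧
      (graphOf I.2.2.1.length I.2.2.2).CliqueFree 4) Solvable :=
  (main2.reduce (fun I => I) PT.id' fun _ h =>
    ⟨⟨h.1, h.2.1, h.2.2, h.2.2.cliqueFree (by omega)⟩, Iff.rfl⟩).npHardOn
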